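import Pool.Agent.J4H59.PL.Stm2

/-!
# Project CY, job FRE: free products
-/

set_option autoImplicit false

open scoped Classical Pointwise

namespace Pool.Agent.J4H25.CY

open Pool.Agent.Helper386.PD3 Pool.Agent.J4H59.PD Pool.Agent.J4H59.PE Pool.Agent.J4H59.PF
open Pool.Agent.J4H59.PG Pool.Agent.J4H59.PI Pool.Agent.J4H59.PJ Pool.Agent.J4H59.PL
open Pool.Agent.Helper158

/-- products of double cosets -/
theorem dbl {G : Type} [Group G] {M : Subgroup G} {t : G}
    (hM : ∀ k : ℕ, ∀ m ∈ M, ∃ a ∈ M, ∃ b ∈ M, t ^ k * m * t = a * t ^ (k + 1) * b)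
    (k l : ℕ) {m : G} (hm : m ∈ M) :
    ∃ a ∈ M, ∃ b ∈ M, t ^ k * m * t ^ l = a * t ^ (k + l) * b := by
  induction l with
  | zero => exact ⟨1, M.one_mem, m, hm, by simp⟩
  | succ l ih =>
    obtain ⟨a, ha, b, hb, h1⟩ := ih
    obtain ⟨a', ha', b', hb', h2⟩ := hM (k + l) b hb
    refine ⟨a * a', M.mul_mem ha ha', b', hb', ?_⟩
    calc t ^ k * m * t ^ (l + 1) = t ^ k * m * t ^ l * t := by rw [pow_succ]; group
      _ = a * (t ^ (k + l) * b * t) := by rw [h1]; group
      _ = a * a' * t ^ (k + (l + 1)) * b' := by rw [h2, ← add_assoc]; group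

/-- powers of elements of a double coset -/
theorem dblp {G : Type} [Group G] {M : Subgroup G} {t : G}
    (hM : ∀ k : ℕ, ∀ m ∈ M, ∃ a ∈ M, ∃ b ∈ M, t ^ k * m * t = a * t ^ (k + 1) * b)
    {z : G} (hz : z ∈ M) (l q : ℕ) :
    ∃ a ∈ M, ∃ b ∈ M, (z * t ^ l) ^ q = a * t ^ (q * l) * b := by
  induction q with
  | zero => exact ⟨1, M.one_mem, 1, M.one_mem, by simp⟩
  | succ q ih =>
    obtain ⟨a, ha, b, hb, h1⟩ := ih
    obtain ⟨a', ha', b', hb', h2⟩ := dbl hM (q * l) l (M.mul_mem hb hz)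
    refine ⟨a * a', M.mul_mem ha ha', b', hb', ?_⟩
    calc (z * t ^ l) ^ (q + 1) = (z * t ^ l) ^ q * (z * t ^ l) := pow_succ _ _
      _ = a * (t ^ (q * l) * (b * z) * t ^ l) := by rw [h1]; simp only [mul_assoc]
      _ = a * a' * t ^ ((q + 1) * l) * b' := by rw [h2, add_mul, one_mul]; simp only [mul_assoc]

theorem t_FRE : S_TID → S_ONE → S_FRE := by
  intro hTID hONE G _ n w e0 e1 e2 e3 d0 d1 d2 h hfgG hG htf ι _ N A hfp hAfg hA i hi hone t htc htN
  obtain ⟨M, hMN, hMi, hM, hinj⟩ := hTID G N t htc htN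
  -- commensurating elements
  choose y hy j hj using fun k : ℕ => comm_of' htf hfp hAfg hA hi hone (m := (t ^ k))
    (fun j => at_of_as (hfp.le j) (as_of_comm (Subgroup.pow_mem _ htc k)))
    (fun n hn j => at_of_as (hfp.le j) (as_of_comm
      (Subgroup.mul_mem _ (Subgroup.inv_mem _ (Subgroup.pow_mem _ htc k)) (by
        rw [mem_comm]
        have h1 : cc n N = N := by
          ext z
          rw [mem_cc]
          constructor
          · intro h
            have h2 : z = n * (n⁻¹ * z * n) * n⁻¹ := by group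
            rw [h2]
            exact N.mul_mem (N.mul_mem hn h) (N.inv_mem hn)
          · intro h
            exact N.mul_mem (N.mul_mem (N.inv_mem hn) h) hn
        rw [h1]))))
  have hfin : Finite (N ⧸ M.subgroupOf N) := by
    have : (M.subgroupOf N).FiniteIndex := ⟨hMi⟩
    infer_instance
  have hpig : ∃ k l : ℕ, k < l ∧ j k = j l ∧ y k * (y l)⁻¹ ∈ M := by
    let f : ℕ → ι × (N ⧸ M.subgroupOf N) := fun k =>
      (j k, (((⟨y k, hy k⟩ : N)⁻¹ : N) : N ⧸ M.subgroupOf N))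
    obtain ⟨k, l, hkl, hf⟩ := Finite.exists_ne_map_eq_of_infinite f
    have hsym : ∀ k l : ℕ, f k = f l → j k = j l ∧ y k * (y l)⁻¹ ∈ M := by
      intro k l hf
      have h1 : j k = j l := congrArg Prod.fst hf
      have h2 : (((⟨y k, hy k⟩ : N)⁻¹ : N) : N ⧸ M.subgroupOf N) =
          (((⟨y l, hy l⟩ : N)⁻¹ : N) : N ⧸ M.subgroupOf N) := congrArg Prod.snd hf
      rw [QuotientGroup.eq, inv_inv] at h2
      exact ⟨h1, h2⟩
    rcases lt_or_gt_of_ne hkl with h1 | h1
    · exact ⟨k, l, h1, hsym k l hf⟩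
    · exact ⟨l, k, h1, hsym l k hf.symm⟩
  obtain ⟨k, l, hkl, hjkl, hz⟩ := hpig
  obtain ⟨m, rfl⟩ : ∃ m : ℕ, l = k + (m + 1) := ⟨l - k - 1, by omega⟩
  set l := k + (m + 1) with hl
  -- the element of the commensurator of the factor
  have hx1 : Subgroup.Commensurable (cc ((t ^ k)⁻¹ * y k) (A (j k))) (A i) := hj k
  have hx2 : Subgroup.Commensurable (cc ((t ^ l)⁻¹ * y l) (A (j k))) (A i) := by
    rw [hjkl]
    exact hj l
  have hs : ((t ^ k)⁻¹ * y k) * ((t ^ l)⁻¹ * y l)⁻¹ ∈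
      Subgroup.Commensurable.commensurator (A i) := by
    rw [mem_comm]
    have h4 := cc_comm (x := ((t ^ k)⁻¹ * y k) * ((t ^ l)⁻¹ * y l)⁻¹) hx2.symm
    rw [← cc_mul, inv_mul_cancel_right] at h4
    exact h4.trans hx1
  set z : G := y k * (y l)⁻¹ with hzdef
  set u : G := z * t ^ (m + 1) with hu
  set s : G := ((t ^ k)⁻¹ * y k) * ((t ^ l)⁻¹ * y l)⁻¹ with hsdef
  have hsG : s = (t ^ k)⁻¹ * u * ((t ^ k)⁻¹)⁻¹ := by
    have h1 : t ^ l = t ^ (m + 1) * t ^ k := by
      rw [← pow_add, hl]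
      congr 1
      omega
    rw [hsdef, hu, hzdef, h1]
    group
  have hspow : ∀ q : ℕ, s ^ q = (t ^ k)⁻¹ * u ^ q * t ^ k := by
    intro q
    rw [hsG, conj_pow, inv_inv]
  -- no power of it is in the factor
  have hno : ∀ q : ℕ, 0 < q → s ^ q ∉ A i := by
    intro q hq hmem
    obtain ⟨r, hr0, -, hr⟩ := Subgroup.exists_pow_mem_of_relIndex_ne_zero hMi (hfp.le i hmem)
    rw [← pow_mul] at hr
    obtain ⟨a, ha, b, hb, h1⟩ := dblp hM hz (m + 1) (q * r)
    obtain ⟨a', ha', b', hb', h2⟩ := dbl hM (q * r * (m + 1)) k hb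
    have h3 : t ^ k * s ^ (q * r) = u ^ (q * r) * t ^ k := by
      rw [hspow]
      group
    have h4 : t ^ k = (a * a') * t ^ (q * r * (m + 1) + k) * (b' * (s ^ (q * r))⁻¹) := by
      calc t ^ k = t ^ k * s ^ (q * r) * (s ^ (q * r))⁻¹ := by group
        _ = u ^ (q * r) * t ^ k * (s ^ (q * r))⁻¹ := by rw [h3]
        _ = a * (t ^ (q * r * (m + 1)) * b * t ^ k) * (s ^ (q * r))⁻¹ := by
          rw [h1]
          simp only [mul_assoc]
        _ = _ := by
          rw [h2]
          simp only [mul_assoc]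
    have h5 := hinj _ _ _ _ (M.mul_mem ha ha') (M.mul_mem hb' (M.inv_mem hr.1)) h4
    have h6 : 0 < q * r * (m + 1) := by positivity
    omega
  have hnoz : ∀ q : ℤ, q ≠ 0 → s ^ q ∉ A i := by
    intro q hq hmem
    refine hno q.natAbs (Int.natAbs_pos.2 hq) ?_
    rcases Int.natAbs_eq q with h1 | h1
    · rw [h1, zpow_natCast] at hmem
      exact hmem
    · rw [h1, zpow_neg, zpow_natCast] at hmem
      exact (Subgroup.inv_mem_iff _).1 hmem
  -- the commensurator of the factor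
  set J := Subgroup.Commensurable.commensurator (A i) with hJ
  have hAJ : A i ≤ J := by
    intro a ha
    rw [hJ, mem_comm]
    have h1 : cc a (A i) = A i := by
      ext z
      rw [mem_cc]
      constructor
      · intro h
        have h2 : z = a * (a⁻¹ * z * a) * a⁻¹ := by group
        rw [h2]
        exact (A i).mul_mem ((A i).mul_mem ha h) ((A i).inv_mem ha)
      · intro h
        exact (A i).mul_mem ((A i).mul_mem ((A i).inv_mem ha) h) ha
    rw [h1]
  obtain ⟨F, hF⟩ := hONE G n w e0 e1 e2 e3 d0 d1 d2 h hfgG hG htf (A i) (hAfg i) hi hone s hs hnoz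
  have hidx : J.index ≠ 0 := by
    have hfinJ : Finite (G ⧸ J) := by
      refine Finite.of_surjective (fun x : F => ((x : G) : G ⧸ J)) ?_
      intro c
      induction c using QuotientGroup.induction_on with
      | H g =>
        obtain ⟨x, hx, k', a, ha, b, hb, hg⟩ := hF g
        refine ⟨⟨x, hx⟩, ?_⟩
        rw [QuotientGroup.eq, hg, inv_mul_cancel_left]
        exact J.mul_mem (J.mul_mem (hAJ ha) (J.zpow_mem hs k')) (hAJ hb)
    exact Subgroup.index_ne_zero_of_finite
  have hNA : N ≤ A i := by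
    refine le_of_relIndex htf hfp hi ?_
    have h1 : J.relIndex N ≠ 0 := by
      rw [← Subgroup.relIndex_top_right] at hidx
      exact mt (Subgroup.relIndex_eq_zero_of_le_right le_top) hidx
    rw [← Subgroup.inf_relIndex_right] at h1
    refine mt (Subgroup.relIndex_eq_zero_of_le_left ?_) h1
    rintro x ⟨hx, hxN⟩
    exact comm_inf htf hfp hi hxN hx
  have hAN : A i = N := le_antisymm (hfp.le i) hNA
  refine ⟨hAN, ?_⟩
  have hfgN : N.FG := hAN ▸ hAfg i
  have hNne : N ≠ ⊥ := hAN ▸ hi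
  have hNone : AllDer (G := N) (RR N) := by
    have := hone
    rw [hAN] at this
    exact this
  exact hONE G n w e0 e1 e2 e3 d0 d1 d2 h hfgG hG htf N hfgN hNne hNone t htc htN

end Pool.Agent.J4H25.CY
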