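import Pool.Agent.J4H25.CY.Fre

/-!
# Project CY, job ONE: the case of one end
-/

set_option autoImplicit false

open scoped Classical Pointwise

namespace Pool.Agent.J4H25.CY

open Pool.Agent.Helper386.PD3 Pool.Agent.J4H59.PD Pool.Agent.J4H59.PE Pool.Agent.J4H59.PF
open Pool.Agent.J4H59.PG Pool.Agent.J4H59.PI Pool.Agent.J4H59.PJ Pool.Agent.J4H59.PL
open Pool.Agent.Helper158

theorem lvl_pos {G : Type} [Group G] {M : Subgroup G} {t : G}
    (hM : ∀ k : ℕ, ∀ m ∈ M, ∃ a ∈ M, ∃ b ∈ M, t ^ k * m * t = a * t ^ (k + 1) * b)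
    (k : ℕ) (c : G ⧸ M) (hc : c ∈ lvl M t k) : ∃ a ∈ M, c = ((a * t ^ k : G) : G ⧸ M) := by
  induction k generalizing c with
  | zero =>
    refine ⟨1, M.one_mem, ?_⟩
    have hc : c = ((1 : G) : G ⧸ M) := hc
    rw [hc, pow_zero, mul_one]
  | succ k ih =>
    obtain ⟨n, hn, c', hc', rfl⟩ := hc
    obtain ⟨m, hm, rfl⟩ := ih c' hc'
    obtain ⟨a, ha, b, hb, h1⟩ := dbl hM 1 k hm
    refine ⟨n * a, M.mul_mem hn ha, ?_⟩
    change ((n * (t * (m * t ^ k)) : G) : G ⧸ M) = ((n * a * t ^ (k + 1) : G) : G ⧸ M)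
    have h2 : n * (t * (m * t ^ k)) = n * a * t ^ (k + 1) * b := by
      calc n * (t * (m * t ^ k)) = n * (t ^ 1 * m * t ^ k) := by
            rw [pow_one]; simp only [mul_assoc]
        _ = n * a * t ^ (k + 1) * b := by
            rw [h1, add_comm 1 k]; simp only [mul_assoc]
    rw [h2, eq_comm, QuotientGroup.eq]
    have h3 : (n * a * t ^ (k + 1))⁻¹ * (n * a * t ^ (k + 1) * b) = b := by group
    rw [h3]
    exact hb

theorem lvl_neg {G : Type} [Group G] {M : Subgroup G} {t : G}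
    (hM : ∀ k : ℕ, ∀ m ∈ M, ∃ a ∈ M, ∃ b ∈ M, t ^ k * m * t = a * t ^ (k + 1) * b)
    (k : ℕ) (c : G ⧸ M) (hc : c ∈ lvl M t⁻¹ k) :
    ∃ a ∈ M, c = ((a * (t ^ k)⁻¹ : G) : G ⧸ M) := by
  induction k generalizing c with
  | zero =>
    refine ⟨1, M.one_mem, ?_⟩
    have hc : c = ((1 : G) : G ⧸ M) := hc
    rw [hc, pow_zero, inv_one, mul_one]
  | succ k ih =>
    obtain ⟨n, hn, c', hc', rfl⟩ := hc
    obtain ⟨m, hm, rfl⟩ := ih c' hc'
    obtain ⟨a, ha, b, hb, h1⟩ := hM k m⁻¹ (M.inv_mem hm)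
    refine ⟨n * b⁻¹, M.mul_mem hn (M.inv_mem hb), ?_⟩
    change ((n * (t⁻¹ * (m * (t ^ k)⁻¹)) : G) : G ⧸ M) =
      ((n * b⁻¹ * (t ^ (k + 1))⁻¹ : G) : G ⧸ M)
    have h2 : n * (t⁻¹ * (m * (t ^ k)⁻¹)) = n * b⁻¹ * (t ^ (k + 1))⁻¹ * a⁻¹ := by
      calc n * (t⁻¹ * (m * (t ^ k)⁻¹)) = n * (t ^ k * m⁻¹ * t)⁻¹ := by
            rw [mul_inv_rev, mul_inv_rev, inv_inv]
        _ = n * b⁻¹ * (t ^ (k + 1))⁻¹ * a⁻¹ := by
            rw [h1, mul_inv_rev, mul_inv_rev]; simp only [mul_assoc]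
    rw [h2, eq_comm, QuotientGroup.eq]
    have h3 : (n * b⁻¹ * (t ^ (k + 1))⁻¹)⁻¹ * (n * b⁻¹ * (t ^ (k + 1))⁻¹ * a⁻¹) = a⁻¹ := by group
    rw [h3]
    exact M.inv_mem ha

theorem t_ONE : S_TID → S_CORE → S_ONE := by
  intro hTID hCORE G _ n w e0 e1 e2 e3 d0 d1 d2 h hfgG hG htf N hfg hne hN t htc htN
  obtain ⟨M, hMN, hMi, hM, hinj⟩ := hTID G N t htc htN
  have hNinf : Infinite N := inf_of_ne_bot htf hne
  have hMne : M ≠ ⊥ := by
    intro h1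
    rw [h1, Subgroup.relIndex_bot_left] at hMi
    exact hMi Nat.card_eq_zero_of_infinite
  have hMfg : M.FG := fg_of_fi hfg hMN hMi
  have hMinf : Infinite M := inf_of_ne_bot htf hMne
  have hMone : AllDer (G := M) (RR M) :=
    allDer_equiv (Subgroup.subgroupOfEquivOfLe hMN) (allDer_fi hN (M.subgroupOf N) hMi)
  have hco : Subgroup.Commensurable M N := by
    refine ⟨hMi, ?_⟩
    rw [Subgroup.relIndex_eq_one.2 hMN]
    exact one_ne_zero
  set H := Subgroup.Commensurable.commensurator M with hH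
  have hMH : M ≤ H := by
    intro m hm
    rw [hH, mem_comm]
    have h1 : cc m M = M := by
      ext z
      rw [mem_cc]
      constructor
      · intro h
        have h2 : z = m * (m⁻¹ * z * m) * m⁻¹ := by group
        rw [h2]
        exact M.mul_mem (M.mul_mem hm h) (M.inv_mem hm)
      · intro h
        exact M.mul_mem (M.mul_mem (M.inv_mem hm) h) hm
    rw [h1]
  have htH : t ∈ H := by
    rw [hH, hco.eq]
    exact htc
  obtain ⟨T, hT⟩ := hCORE G n w e0 e1 e2 e3 d0 d1 d2 h hfgG hG htf M H hMfg hMinf hMone hMH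
    (fun h hh => as_of_comm hh) t htH (by
      intro k l c hk hl
      obtain ⟨a, ha, h1⟩ := lvl_pos hM k c hk
      obtain ⟨b, hb, h2⟩ := lvl_pos hM l c hl
      rw [h1, QuotientGroup.eq] at h2
      refine hinj k l (a⁻¹ * b) ((a * t ^ k)⁻¹ * (b * t ^ l))⁻¹ (M.mul_mem (M.inv_mem ha) hb)
        (M.inv_mem h2) ?_
      group)
  refine ⟨T, fun g => ?_⟩
  obtain ⟨x, hx, k, hk | hk⟩ := hT (g : G ⧸ M)
  · obtain ⟨a, ha, h1⟩ := lvl_pos hM k _ hk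
    have h1 : ((a * t ^ k : G) : G ⧸ M) = ((x⁻¹ * g : G) : G ⧸ M) := h1.symm
    rw [QuotientGroup.eq] at h1
    refine ⟨x, hx, k, a, hMN ha, _, hMN h1, ?_⟩
    rw [zpow_natCast]
    group
  · obtain ⟨a, ha, h1⟩ := lvl_neg hM k _ hk
    have h1 : ((a * (t ^ k)⁻¹ : G) : G ⧸ M) = ((x⁻¹ * g : G) : G ⧸ M) := h1.symm
    rw [QuotientGroup.eq] at h1
    refine ⟨x, hx, -(k : ℤ), a, hMN ha, _, hMN h1, ?_⟩
    rw [zpow_neg, zpow_natCast]
    group

end Pool.Agent.J4H25.CY
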